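import Pool.Agent.H534R3.Local
import Pool.Agent.H534R3.PiThree

/-!
# Differences of the sets of generalized normal vectors

For all multiplicatively independent integers `a, b > 1` and all `k ≥ 0` the set
`N_{a,k} \ N_{b,k}` of the real polynomials `g` of degree at most `k` such that `g(n) a ^ n` is
uniformly distributed modulo one and `g(n) b ^ n` is not is complete for the class of the
differences of two sets of the third multiplicative class.
-/

set_option autoImplicit false

open Filter Topology

namespace Pool.Agent.Results.MP_df8ac3_lc.AllDegrees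

/-- The sequence `x` is uniformly distributed modulo one. -/
def IsUD (x : ℕ → ℝ) : Prop := ∀ s t : ℝ, 0 ≤ s → s < t → t ≤ 1 →
  Tendsto
    (fun N : ℕ =>
      (((Finset.range N).filter (fun n => s ≤ Int.fract (x n) ∧ Int.fract (x n) < t)).card : ℝ)
        / (N : ℝ))
    atTop (nhds (t - s))

/-- The set `N_{a,k}`: the coefficient vectors `c` of the real polynomials
`g(x) = c 0 + c 1 x + ... + c k x ^ k` such that the sequence `g(n) a ^ n` is uniformly distributed
modulo one. -/
def NormalVectors (a k : ℕ) : Set (Fin (k + 1) → ℝ) :=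
  {c | IsUD fun n : ℕ => (∑ i : Fin (k + 1), c i * (n : ℝ) ^ (i : ℕ)) * (a : ℝ) ^ n}

/-- `A` is a countable intersection of countable unions of closed sets. -/
def IsPiThree {X : Type} [TopologicalSpace X] (A : Set X) : Prop :=
  ∃ F : ℕ → ℕ → Set X, (∀ i j, IsClosed (F i j)) ∧ A = ⋂ i, ⋃ j, F i j

/-- `D` is the difference of two sets of the third multiplicative class. -/
def IsDTwo {X : Type} [TopologicalSpace X] (D : Set X) : Prop :=
  ∃ A B : Set X, IsPiThree A ∧ IsPiThree B ∧ D = A \ B

/-- `D` is complete for the class of the differences of two sets of the third multiplicative class: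
it belongs to the class and its complement does not. -/
def IsDTwoComplete {X : Type} [TopologicalSpace X] (D : Set X) : Prop :=
  IsDTwo D ∧ ¬ IsDTwo Dᶜ

theorem isUD_iff (x : ℕ → ℝ) : IsUD x ↔ Pool.Agent.H534R3.UDist.UD x := by
  constructor
  · intro h s t hs hst ht
    rcases hst.lt_or_eq with h1 | h1
    · exact h s t hs h1 ht
    · subst h1
      have h2 : ∀ N : ℕ, ((Finset.range N).filter
          (fun n => s ≤ Int.fract (x n) ∧ Int.fract (x n) < s)) = ∅ := by
        intro N
        refine Finset.filter_eq_empty_iff.2 fun n _ hn => ?_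
        exact absurd hn.2 (not_lt.2 hn.1)
      simp only [h2, Finset.card_empty, Nat.cast_zero, zero_div, sub_self]
      exact tendsto_const_nhds
  · intro h s t hs hst ht
    exact h s t hs hst.le ht

theorem isPiThree_preimage {X Y : Type} [TopologicalSpace X] [TopologicalSpace Y] {f : X → Y}
    (hf : Continuous f) {A : Set Y} (hA : IsPiThree A) : IsPiThree (f ⁻¹' A) := by
  obtain ⟨F, hF, rfl⟩ := hA
  refine ⟨fun i j => f ⁻¹' F i j, fun i j => (hF i j).preimage hf, ?_⟩
  simp only [Set.preimage_iInter, Set.preimage_iUnion]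

theorem isPiThree_normalVectors (a k : ℕ) : IsPiThree (NormalVectors a k) := by
  obtain ⟨F, hF, hFe⟩ := Pool.Agent.H534R3.UDist.ud_piThree
    (fun (c : Fin (k + 1) → ℝ) (n : ℕ) =>
      (∑ i : Fin (k + 1), c i * (n : ℝ) ^ (i : ℕ)) * (a : ℝ) ^ n) (fun n => by fun_prop)
  refine ⟨F, hF, ?_⟩
  rw [← hFe]
  ext c
  exact isUD_iff _

/-- The constant polynomials. -/
def const (k : ℕ) (ξ : ℝ) : Fin (k + 1) → ℝ := fun i => if i = 0 then ξ else 0

theorem continuous_const' (k : ℕ) : Continuous (const k) := by
  refine continuous_pi fun i => ?_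
  unfold const
  split_ifs
  · exact continuous_id
  · exact continuous_const

theorem const_mem (a k : ℕ) (ξ : ℝ) :
    const k ξ ∈ NormalVectors a k ↔ Pool.Agent.H534R3.UDist.UD fun n => ξ * (a : ℝ) ^ n := by
  have h1 : ∀ n : ℕ, (∑ i : Fin (k + 1), const k ξ i * (n : ℝ) ^ (i : ℕ)) = ξ := by
    intro n
    rw [Finset.sum_eq_single (0 : Fin (k + 1))]
    · simp [const]
    · intro i _ hi
      simp [const, hi]
    · intro h
      exact absurd (Finset.mem_univ _) h
  change IsUD (fun n : ℕ => (∑ i : Fin (k + 1), const k ξ i * (n : ℝ) ^ (i : ℕ)) * (a : ℝ) ^ n) ↔ _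
  simp only [h1]
  exact isUD_iff _

/-- For all multiplicatively independent integers `a, b > 1` and every `k` the set
`N_{a,k} \ N_{b,k}` is complete for the class of the differences of two sets of the third
multiplicative class. -/
theorem result (a b k : ℕ) (ha : 1 < a) (hb : 1 < b)
    (hab : ∀ m n : ℕ, 0 < m → 0 < n → a ^ m ≠ b ^ n) :
    IsDTwoComplete (NormalVectors a k \ NormalVectors b k) := by
  refine ⟨⟨_, _, isPiThree_normalVectors a k, isPiThree_normalVectors b k, rfl⟩, ?_⟩
  rintro ⟨A, B, hA, hB, hAB⟩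
  obtain ⟨g, hg, hga, hgb⟩ := Pool.Agent.H534R3.Rota.reduce_pair a b ha hb hab
  have hG : Continuous fun w => const k (g w) := (continuous_const' k).comp hg
  obtain ⟨F, hF, hFe⟩ := isPiThree_preimage hG hA
  obtain ⟨F', hF', hFe'⟩ := isPiThree_preimage hG hB
  refine Pool.Agent.H534R3.Rota.no_dual
    (fun w t => ∀ e, ∃ J, ∀ j, J ≤ j → Pool.Agent.H534R3.Rota.ty j = t → e ≤ w j)
    (fun w t => Iff.rfl) F F' hF hF' ?_
  rw [← hFe, ← hFe', ← Set.preimage_sdiff, ← hAB, Set.preimage_compl]
  congr 1
  ext w
  rw [Set.mem_preimage, Set.mem_sdiff, const_mem, const_mem, hga, hgb]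
  exact Iff.rfl

end Pool.Agent.Results.MP_df8ac3_lc.AllDegrees
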